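import Pool.Agent.Helper87.TB.St

/-!
# Project TB (MP_e73f90_co): module PB
-/

set_option autoImplicit false

noncomputable section

namespace Pool.Agent.Helper90.TB

open Finset Pool.Agent.Helper87.TB
open scoped Classical

/-- the product is the quotient of the falling factorial by the power -/
theorem prod_eq (N : ℕ) (hN : 1 ≤ N) (r : ℕ) :
    (N.choose r : ℝ) * (r.factorial : ℝ) =
      (N : ℝ) ^ r * ∏ j ∈ range r, (1 - (j : ℝ) / N) := by
  have hN0 : (N : ℝ) ≠ 0 := by
    have : (0 : ℝ) < N := by exact_mod_cast hN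
    exact this.ne'
  have h1 : (N.choose r : ℝ) * (r.factorial : ℝ) = (N.descFactorial r : ℝ) := by
    rw [Nat.descFactorial_eq_factorial_mul_choose]
    push_cast
    ring
  rw [h1]
  induction r with
  | zero => simp
  | succ k ih =>
    have ih' := ih (by
      rw [Nat.descFactorial_eq_factorial_mul_choose]
      push_cast
      ring)
    rw [Nat.descFactorial_succ, prod_range_succ, pow_succ]
    by_cases hk : k ≤ N
    · rw [Nat.cast_mul, Nat.cast_sub hk, ih']
      field_simp
    · have h0 : N.descFactorial k = 0 := Nat.descFactorial_eq_zero_iff_lt.2 (by omega)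
      rw [h0] at ih'
      rw [h0]
      have : (N : ℝ) ^ k * ∏ j ∈ range k, (1 - (j : ℝ) / N) = 0 := by
        rw [← ih']
        simp
      rw [Nat.mul_zero, Nat.cast_zero]
      calc (0 : ℝ) = ((N : ℝ) ^ k * ∏ j ∈ range k, (1 - (j : ℝ) / N)) * (N * (1 - (k : ℝ) / N)) := by
            rw [this, zero_mul]
        _ = _ := by ring

/-- the product is nonnegative -/
theorem prod_nonneg (N : ℕ) (hN : 1 ≤ N) (r : ℕ) :
    0 ≤ ∏ j ∈ range r, (1 - (j : ℝ) / N) := by
  have h := prod_eq N hN r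
  have hN0 : (0 : ℝ) < N := by exact_mod_cast hN
  by_contra hneg
  push Not at hneg
  have h2 : (N : ℝ) ^ r * ∏ j ∈ range r, (1 - (j : ℝ) / N) < 0 :=
    mul_neg_of_pos_of_neg (by positivity) hneg
  rw [← h] at h2
  have : (0 : ℝ) ≤ (N.choose r : ℝ) * (r.factorial : ℝ) := by positivity
  linarith

/-- the ball contains the words of weight `r` -/
theorem choose_le_ball (n r : ℕ) :
    n.choose r ≤ (univ.filter (fun x : W n => hammingNorm x ≤ r)).card := by
  have h1 : n.choose r = (Finset.powersetCard r (univ : Finset (Fin n))).card := by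
    rw [Finset.card_powersetCard, Finset.card_univ, Fintype.card_fin]
  rw [h1]
  apply Finset.card_le_card_of_injOn (fun J => ind J)
  · intro J hJ
    have hJ' := (Finset.mem_powersetCard.1 (Finset.mem_coe.1 hJ)).2
    rw [Finset.mem_coe, Finset.mem_filter]
    refine ⟨Finset.mem_univ _, ?_⟩
    unfold hammingNorm ind
    refine le_trans (Finset.card_le_card ?_) hJ'.le
    intro i hi
    rw [Finset.mem_filter] at hi
    by_contra hiJ
    exact hi.2 (by simp [hiJ])
  · intro J _ K _ hJK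
    ext i
    have h := congrFun hJK i
    simp only [ind] at h
    by_cases hi : i ∈ J
    · by_cases hk : i ∈ K
      · simp [hi, hk]
      · simp [hi, hk] at h
    · by_cases hk : i ∈ K
      · simp [hi, hk] at h
      · simp [hi, hk]

theorem card_pos (n : ℕ) (V : Submodule (ZMod 2) (W n)) : 0 < Nat.card V := by
  have : Finite V := Subtype.finite
  exact Nat.card_pos

/-- main estimate -/
theorem main_est (hCT : StCT) (n r ω : ℕ) (V : Submodule (ZMod 2) (W n)) (hn : 1 ≤ n) (hr : 1 ≤ r)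
    (hω : 1 ≤ ω) (hV : Cov n r V) :
    (n.choose r : ℝ) ≤ dens n r V *
      (((poorSets V ω r).card : ℝ) + r * (n : ℝ) ^ r / ω + r * (n : ℝ) ^ (r - 1)) := by
  have h := hCT n r ω V hn hr hV
  have hω0 : (0 : ℝ) < ω := by exact_mod_cast hω
  have hc : (0 : ℝ) < (Nat.card V : ℝ) := by exact_mod_cast card_pos n V
  have h2 : (ω : ℝ) * 2 ^ n ≤ (Nat.card V : ℝ) *
      (ω * ((poorSets V ω r).card : ℝ) + r * (n : ℝ) ^ r + ω * (r * (n : ℝ) ^ (r - 1))) := by
    exact_mod_cast h
  have h3 : (2 : ℝ) ^ n ≤ (Nat.card V : ℝ) *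
      (((poorSets V ω r).card : ℝ) + r * (n : ℝ) ^ r / ω + r * (n : ℝ) ^ (r - 1)) := by
    have h4 : (ω : ℝ) * ((Nat.card V : ℝ) *
      (((poorSets V ω r).card : ℝ) + r * (n : ℝ) ^ r / ω + r * (n : ℝ) ^ (r - 1))) =
      (Nat.card V : ℝ) *
      (ω * ((poorSets V ω r).card : ℝ) + r * (n : ℝ) ^ r + ω * (r * (n : ℝ) ^ (r - 1))) := by
      field_simp
    rw [← h4] at h2
    exact le_of_mul_le_mul_left h2 hω0
  have hb : (n.choose r : ℝ) ≤ (((univ.filter (fun x : W n => hammingNorm x ≤ r)).card : ℕ) : ℝ) := by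
    exact_mod_cast choose_le_ball n r
  unfold Helper87.TB.dens
  set b : ℝ := (((univ.filter (fun x : W n => hammingNorm x ≤ r)).card : ℕ) : ℝ) with hbdef
  have hb0 : 0 ≤ b := le_trans (by positivity) hb
  set X : ℝ := (((poorSets V ω r).card : ℝ) + r * (n : ℝ) ^ r / ω + r * (n : ℝ) ^ (r - 1)) with hX
  have h2n : (0 : ℝ) < 2 ^ n := by positivity
  calc (n.choose r : ℝ) ≤ b := hb
    _ = b * 2 ^ n / 2 ^ n := by field_simp
    _ ≤ b * ((Nat.card V : ℝ) * X) / 2 ^ n := by
        apply div_le_div_of_nonneg_right _ h2n.le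
        exact mul_le_mul_of_nonneg_left h3 hb0
    _ = (Nat.card V : ℝ) * b / 2 ^ n * X := by ring

/-- asymptotics -/
theorem eventually_le (r : ℕ) (P ε : ℝ) (hr : 1 ≤ r) (hε : 0 < ε) :
    ∃ ω : ℕ, 1 ≤ ω ∧ ∃ n0 : ℕ, 1 ≤ n0 ∧ r ≤ n0 ∧ ∀ n : ℕ, n0 ≤ n →
      P * ((n : ℝ) ^ r / r.factorial) + r * (n : ℝ) ^ r / ω + r * (n : ℝ) ^ (r - 1) ≤
        (P + ε) * (n.choose r : ℝ) := by
  obtain ⟨ω, hω⟩ := exists_nat_gt (2 * (r * r.factorial : ℝ) / ε)
  have hf : (0 : ℝ) < r.factorial := by exact_mod_cast Nat.factorial_pos r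
  have hr0 : (0 : ℝ) < r := by exact_mod_cast hr
  have hω0 : (0 : ℝ) < ω := lt_of_le_of_lt (by positivity) hω
  have hω1 : 1 ≤ ω := by exact_mod_cast hω0
  refine ⟨ω, hω1, ?_⟩
  have hequiv := isEquivalent_choose r
  -- ratio tends to one
  have hlim1 : Filter.Tendsto (fun n : ℕ => ((n : ℝ) ^ r / r.factorial) / (n.choose r : ℝ))
      Filter.atTop (nhds 1) := by
    have hne : ∀ᶠ n : ℕ in Filter.atTop, ((n.choose r : ℕ) : ℝ) ≠ 0 := by
      filter_upwards [Filter.eventually_ge_atTop r] with n hn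
      have : 0 < n.choose r := Nat.choose_pos hn
      exact_mod_cast this.ne'
    exact (Asymptotics.isEquivalent_iff_tendsto_one hne).1 hequiv.symm
  have hlim2 : Filter.Tendsto (fun n : ℕ => (n : ℝ) ^ (r - 1) / (n.choose r : ℝ))
      Filter.atTop (nhds 0) := by
    have h1 : Filter.Tendsto (fun n : ℕ => (r.factorial : ℝ) *
        (((n : ℝ) ^ r / r.factorial) / (n.choose r : ℝ)) * ((n : ℝ))⁻¹)
        Filter.atTop (nhds ((r.factorial : ℝ) * 1 * 0)) :=
      (hlim1.const_mul _).mul (tendsto_inv_atTop_zero.comp tendsto_natCast_atTop_atTop)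
    rw [mul_zero] at h1
    refine h1.congr' ?_
    filter_upwards [Filter.eventually_ge_atTop 1] with n hn
    have hn0 : (n : ℝ) ≠ 0 := by
      have : 0 < n := hn
      exact_mod_cast this.ne'
    have hp : (n : ℝ) ^ r = (n : ℝ) ^ (r - 1) * n := by
      rw [← pow_succ, Nat.sub_add_cancel hr]
    rw [hp]
    field_simp
  have hlim : Filter.Tendsto (fun n : ℕ => P * (((n : ℝ) ^ r / r.factorial) / (n.choose r : ℝ)) +
      (r * r.factorial / ω) * (((n : ℝ) ^ r / r.factorial) / (n.choose r : ℝ)) +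
      r * ((n : ℝ) ^ (r - 1) / (n.choose r : ℝ)))
      Filter.atTop (nhds (P * 1 + (r * r.factorial / ω) * 1 + r * 0)) :=
    ((hlim1.const_mul _).add (hlim1.const_mul _)).add (hlim2.const_mul _)
  have hlt : P * 1 + ((r : ℝ) * r.factorial / ω) * 1 + r * 0 < P + ε := by
    have : (r : ℝ) * r.factorial / ω < ε := by
      rw [div_lt_iff₀ hω0]
      rw [div_lt_iff₀ hε] at hω
      nlinarith [mul_pos hr0 hf]
    linarith
  have hev := hlim.eventually (eventually_lt_nhds hlt)
  rw [Filter.eventually_atTop] at hev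
  obtain ⟨n1, hn1⟩ := hev
  refine ⟨max (max n1 r) 1, le_max_right _ _, le_trans (le_max_right _ _) (le_max_left _ _), ?_⟩
  intro n hn
  have hn1' : n1 ≤ n := le_trans (le_trans (le_max_left _ _) (le_max_left _ _)) hn
  have hnr : r ≤ n := le_trans (le_trans (le_max_right _ _) (le_max_left _ _)) hn
  have h := hn1 n hn1'
  have hc : (0 : ℝ) < (n.choose r : ℝ) := by exact_mod_cast Nat.choose_pos hnr
  have h3 := mul_le_mul_of_nonneg_right h.le hc.le
  refine le_trans (le_of_eq ?_) h3
  field_simp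

theorem aPB (hCT : StCT) (hPC : StPC) : StPB := by
  intro r N ε hN hε
  have hN0 : (0 : ℝ) < N := by exact_mod_cast hN
  rcases Nat.eq_zero_or_pos r with hr | hr
  · subst hr
    refine ⟨0, 0, ?_⟩
    intro n _ V hV _
    have hV' : V = ⊤ := by
      rw [eq_top_iff]
      intro y _
      obtain ⟨v, hv, h⟩ := hV y
      have h0 : hammingNorm (y - v) = 0 := Nat.le_zero.1 h
      rw [hammingNorm_eq_zero, sub_eq_zero] at h0
      rw [h0]
      exact hv
    have hcard : (Nat.card V : ℝ) = (2 : ℝ) ^ n := by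
      rw [hV', Nat.card_congr (Submodule.topEquiv (R := ZMod 2) (M := W n)).toEquiv]
      have : Nat.card (W n) = 2 ^ n := by
        simp [W, Nat.card_eq_fintype_card, ZMod.card]
      rw [this]
      push_cast
      rfl
    have hb : (1 : ℝ) ≤ (((univ.filter (fun x : W n => hammingNorm x ≤ 0)).card : ℕ) : ℝ) := by
      have := choose_le_ball n 0
      rw [Nat.choose_zero_right] at this
      exact_mod_cast this
    have h2n : (0 : ℝ) < 2 ^ n := by positivity
    have hd : 1 ≤ dens n 0 V := by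
      unfold Helper87.TB.dens
      rw [hcard, mul_div_assoc, mul_comm, div_mul_cancel₀ _ h2n.ne']
      exact hb
    simp only [Finset.range_zero, Finset.prod_empty]
    nlinarith
  · obtain ⟨ω, hω, n0, hn0, hrn0, h⟩ :=
      eventually_le r (∏ j ∈ range r, (1 - (j : ℝ) / N)) ε hr hε
    refine ⟨ω, n0, ?_⟩
    intro n hn V hV hP
    have hn1 : 1 ≤ n := le_trans hn0 hn
    have hnr : r ≤ n := le_trans hrn0 hn
    have hm := main_est hCT n r ω V hn1 hr hω hV
    have hc : (0 : ℝ) < (n.choose r : ℝ) := by exact_mod_cast Nat.choose_pos hnr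
    have hpc : ((poorSets V ω r).card : ℝ) * (N : ℝ) ^ r ≤ (N.choose r : ℝ) * (n : ℝ) ^ r := by
      exact_mod_cast hPC n r ω N V hP
    have hf : (0 : ℝ) < r.factorial := by exact_mod_cast Nat.factorial_pos r
    set P : ℝ := ∏ j ∈ range r, (1 - (j : ℝ) / N) with hPdef
    have hp : ((poorSets V ω r).card : ℝ) ≤ P * ((n : ℝ) ^ r / r.factorial) := by
      have hNr : (0 : ℝ) < (N : ℝ) ^ r := by positivity
      have he := prod_eq N hN r
      rw [← hPdef] at he
      have h1 : (N.choose r : ℝ) * (n : ℝ) ^ r =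
          (P * ((n : ℝ) ^ r / r.factorial)) * (N : ℝ) ^ r := by
        have h2 : (N.choose r : ℝ) = (N : ℝ) ^ r * P / r.factorial := by
          rw [← he]
          field_simp
        rw [h2]
        ring
      rw [h1] at hpc
      exact le_of_mul_le_mul_right hpc hNr
    have hdens : 0 ≤ dens n r V := by
      unfold Helper87.TB.dens
      positivity
    have hn' := h n hn
    have h5 : (n.choose r : ℝ) ≤ dens n r V * ((P + ε) * (n.choose r : ℝ)) := by
      refine le_trans hm (mul_le_mul_of_nonneg_left ?_ hdens)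
      refine le_trans ?_ hn'
      linarith
    have h6 : 1 * (n.choose r : ℝ) ≤ (dens n r V * (P + ε)) * (n.choose r : ℝ) := by
      rw [one_mul, mul_assoc]
      exact h5
    exact le_of_mul_le_mul_right h6 hc

end Pool.Agent.Helper90.TB

end
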